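import Mathlib

/-!
# Complete multipartite structures in dense uniform hypergraphs

`turan_blowup`: an `r`-uniform family `B` on a large finite set `W` whose density (among ordered
`r`-tuples) exceeds `1 - 1 / choose (T - 1) (r - 1)` contains a complete `T`-partite structure with
parts of size `K` (theorems of de Caen and Erdős).
-/

namespace Pool.Agent.H461R2.PD

open Finset

section clique

variable {W : Type} [Fintype W] [DecidableEq W]

/-- a tuple all of whose `r`-subsets belong to `B` -/
def Clq (B : Finset (Finset W)) (r : ℕ) {k : ℕ} (x : Fin k → W) : Prop :=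
  ∀ I : Finset (Fin k), I.card = r → I.image x ∈ B

open Classical in
/-- the number of such tuples -/
noncomputable def cnt (B : Finset (Finset W)) (r k : ℕ) : ℕ :=
  (univ.filter fun x : Fin k → W => Clq B r x).card

variable {B : Finset (Finset W)} {r : ℕ}

theorem Clq.comp {k l : ℕ} {x : Fin k → W} (h : Clq B r x) (f : Fin l → Fin k)
    (hf : Function.Injective f) : Clq B r (x ∘ f) := by
  intro I hI
  have := h (I.image f) (by rw [card_image_of_injective _ hf, hI])
  rwa [image_image] at this

theorem Clq.of_insertNth {k : ℕ} {i : Fin (k + 1)} {y : W} {u : Fin k → W}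
    (h : Clq B r (i.insertNth y u : Fin (k + 1) → W)) : Clq B r u := by
  have := h.comp i.succAbove Fin.succAbove_right_injective
  convert this using 1
  funext j
  simp

theorem Clq.of_cons {k : ℕ} {y : W} {u : Fin k → W}
    (h : Clq B r (Fin.cons y u : Fin (k + 1) → W)) : Clq B r u := by
  have := h.comp Fin.succ (Fin.succ_injective _)
  convert this using 1
  funext j
  simp

open Classical in
/-- the number of positions that can be replaced by `z` -/
theorem replace_le (hr : 1 ≤ r) {j : ℕ} {x : Fin (j + 1) → W} (hx : Clq B r x) (z : W)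
    (hz : ¬ Clq B r (Fin.cons z x : Fin (j + 2) → W)) :
    (univ.filter fun i : Fin (j + 1) => Clq B r (Function.update x i z)).card ≤ r - 1 := by
  unfold Clq at hz
  push Not at hz
  obtain ⟨I, hI, hIB⟩ := hz
  have h0 : (0 : Fin (j + 2)) ∈ I := by
    by_contra h0
    apply hIB
    -- `I` consists of successors
    set I' : Finset (Fin (j + 1)) := univ.filter fun i => i.succ ∈ I with hI'
    have hII : I = I'.image Fin.succ := by
      ext i
      simp only [hI', mem_image, mem_filter, mem_univ, true_and]
      constructor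
      · intro hi
        have hne : i ≠ 0 := by rintro rfl; exact h0 hi
        obtain ⟨i', rfl⟩ := Fin.exists_succ_eq.2 hne
        exact ⟨i', hi, rfl⟩
      · rintro ⟨i', hi', rfl⟩
        exact hi'
    rw [hII, image_image]
    have : (Fin.cons z x : Fin (j + 2) → W) ∘ Fin.succ = x := by funext i; simp
    rw [this]
    apply hx
    rw [← hI, hII, card_image_of_injective _ (Fin.succ_injective _)]
  set I' : Finset (Fin (j + 1)) := univ.filter fun i => i.succ ∈ I with hI'
  have hII : I = insert 0 (I'.image Fin.succ) := by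
    ext i
    simp only [hI', mem_insert, mem_image, mem_filter, mem_univ, true_and]
    constructor
    · intro hi
      by_cases hne : i = 0
      · exact Or.inl hne
      · obtain ⟨i', rfl⟩ := Fin.exists_succ_eq.2 hne
        exact Or.inr ⟨i', hi, rfl⟩
    · rintro (rfl | ⟨i', hi', rfl⟩)
      · exact h0
      · exact hi'
  have hcard : I'.card = r - 1 := by
    have h1 : I.card = I'.card + 1 := by
      rw [hII, card_insert_of_notMem, card_image_of_injective _ (Fin.succ_injective _)]
      simp
    omega
  rw [← hcard]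
  apply card_le_card
  intro i hi
  simp only [mem_filter, mem_univ, true_and] at hi
  by_contra hiI
  apply hIB
  have h1 := hi (insert i I') (by rw [card_insert_of_notMem hiI, hcard]; omega)
  have h2 : (insert i I').image (Function.update x i z) = I.image (Fin.cons z x : Fin (j + 2) → W) := by
    rw [hII, image_insert, image_insert, Function.update_self, Fin.cons_zero, image_image]
    congr 1
    apply image_congr
    intro l hl
    have hne : l ≠ i := by rintro rfl; exact hiI hl
    simp [Function.update_of_ne hne]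
  rw [h2] at h1
  exact h1

open Classical in
theorem sum_deg {j : ℕ} (i : Fin (j + 1)) :
    cnt B r (j + 1) = ∑ u : Fin j → W,
      (univ.filter fun y : W => Clq B r (i.insertNth y u : Fin (j + 1) → W)).card := by
  unfold cnt
  simp only [card_filter]
  rw [← (Fin.insertNthEquiv (fun _ => W) i).sum_comp, Fintype.sum_prod_type_right]
  rfl

open Classical in
theorem cauchy {j : ℕ} (i : Fin (j + 1)) :
    (cnt B r (j + 1)) ^ 2 ≤ cnt B r j * ∑ u : Fin j → W,
      (univ.filter fun y : W => Clq B r (i.insertNth y u : Fin (j + 1) → W)).card ^ 2 := by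
  rw [sum_deg (B := B) (r := r) i]
  set deg : (Fin j → W) → ℕ := fun u =>
    (univ.filter fun y : W => Clq B r (i.insertNth y u : Fin (j + 1) → W)).card with hdeg
  have hz : ∀ u, ¬ Clq B r u → deg u = 0 := by
    intro u hu
    rw [hdeg]
    simp only [card_eq_zero]
    rw [filter_eq_empty_iff]
    intro y _ hy
    exact hu hy.of_insertNth
  have h1 : ∑ u, deg u = ∑ u ∈ univ.filter (fun u : Fin j → W => Clq B r u), deg u := by
    rw [sum_filter]
    refine sum_congr rfl fun u _ => ?_
    split_ifs with h
    · rfl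
    · exact hz u h
  have h2 : ∑ u, deg u ^ 2 = ∑ u ∈ univ.filter (fun u : Fin j → W => Clq B r u), deg u ^ 2 := by
    rw [sum_filter]
    refine sum_congr rfl fun u _ => ?_
    split_ifs with h
    · rfl
    · rw [hz u h]; rfl
  rw [h1, h2]
  have h3 := sum_mul_sq_le_sq_mul_sq (univ.filter (fun u : Fin j → W => Clq B r u))
    (fun _ => 1) deg
  simpa [cnt] using h3

open Classical in
theorem sum_sq {j : ℕ} (i : Fin (j + 1)) :
    ∑ u : Fin j → W,
      (univ.filter fun y : W => Clq B r (i.insertNth y u : Fin (j + 1) → W)).card ^ 2 =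
    ∑ x : Fin (j + 1) → W, ∑ z : W,
      if Clq B r x ∧ Clq B r (Function.update x i z) then 1 else 0 := by
  symm
  rw [← (Fin.insertNthEquiv (fun _ => W) i).sum_comp, Fintype.sum_prod_type_right]
  refine sum_congr rfl fun u _ => ?_
  rw [sq, card_filter, sum_mul_sum]
  refine sum_congr rfl fun y _ => sum_congr rfl fun z _ => ?_
  have h1 : (Fin.insertNthEquiv (fun _ => W) i) (y, u) = (i.insertNth y u : Fin (j + 1) → W) := rfl
  rw [h1, Fin.update_insertNth]
  by_cases ha : Clq B r (i.insertNth y u : Fin (j + 1) → W) <;>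
    by_cases hb : Clq B r (i.insertNth z u : Fin (j + 1) → W) <;> simp [ha, hb]

open Classical in
/-- de Caen's inequality -/
theorem main_ineq (hr : 1 ≤ r) {j : ℕ} (hj : r ≤ j + 1) :
    (j + 1) * (cnt B r (j + 1)) ^ 2 ≤
      cnt B r j * ((j + 2 - r) * cnt B r (j + 2) + (r - 1) * Fintype.card W * cnt B r (j + 1)) := by
  have h1 : (j + 1) * (cnt B r (j + 1)) ^ 2 ≤ cnt B r j * ∑ i : Fin (j + 1), ∑ u : Fin j → W,
      (univ.filter fun y : W => Clq B r (i.insertNth y u : Fin (j + 1) → W)).card ^ 2 := by
    rw [mul_sum]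
    calc (j + 1) * (cnt B r (j + 1)) ^ 2 = ∑ _i : Fin (j + 1), (cnt B r (j + 1)) ^ 2 := by
          simp
      _ ≤ _ := sum_le_sum fun i _ => cauchy i
  refine h1.trans (Nat.mul_le_mul_left _ ?_)
  have h2 : ∑ i : Fin (j + 1), ∑ u : Fin j → W,
      (univ.filter fun y : W => Clq B r (i.insertNth y u : Fin (j + 1) → W)).card ^ 2 =
      ∑ x : Fin (j + 1) → W, ∑ z : W, ∑ i : Fin (j + 1),
        if Clq B r x ∧ Clq B r (Function.update x i z) then 1 else 0 := by
    rw [sum_congr rfl fun i _ => sum_sq (B := B) (r := r) i, sum_comm]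
    exact sum_congr rfl fun x _ => sum_comm
  rw [h2]
  have h3 : ∀ (x : Fin (j + 1) → W) (z : W), (∑ i : Fin (j + 1),
        if Clq B r x ∧ Clq B r (Function.update x i z) then 1 else 0) ≤
      (r - 1) * (if Clq B r x then 1 else 0) +
        (j + 2 - r) * (if Clq B r (Fin.cons z x : Fin (j + 2) → W) then 1 else 0) := by
    intro x z
    by_cases hx : Clq B r x
    · by_cases hz : Clq B r (Fin.cons z x : Fin (j + 2) → W)
      · simp only [hx, hz, true_and, if_true, mul_one]
        rw [← card_filter]
        refine (card_le_univ _).trans ?_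
        rw [Fintype.card_fin]
        omega
      · simp only [hx, hz, true_and, if_true, if_false, mul_one, mul_zero, add_zero]
        rw [← card_filter]
        exact replace_le hr hx z hz
    · simp [hx]
  have hc2 : cnt B r (j + 2) = ∑ x : Fin (j + 1) → W, ∑ z : W,
      if Clq B r (Fin.cons z x : Fin (j + 2) → W) then 1 else 0 := by
    unfold cnt
    rw [card_filter, ← (Fin.consEquiv (fun _ => W)).sum_comp, Fintype.sum_prod_type_right]
    rfl
  calc _ ≤ ∑ x : Fin (j + 1) → W, ∑ z : W, ((r - 1) * (if Clq B r x then 1 else 0) +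
        (j + 2 - r) * (if Clq B r (Fin.cons z x : Fin (j + 2) → W) then 1 else 0)) :=
        sum_le_sum fun x _ => sum_le_sum fun z _ => h3 x z
    _ = _ := by
        simp only [sum_add_distrib]
        rw [add_comm]
        congr 1
        · rw [hc2, mul_sum]
          exact sum_congr rfl fun x _ => by rw [mul_sum]
        · simp only [sum_const, card_univ, smul_eq_mul]
          rw [← mul_sum, ← mul_sum, cnt, card_filter]
          ring

open Classical in
theorem cnt_pred (hr : 1 ≤ r) : cnt B r (r - 1) = Fintype.card W ^ (r - 1) := by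
  unfold cnt
  rw [filter_true_of_mem, card_univ, Fintype.card_fun, Fintype.card_fin]
  intro x _ I hI
  exfalso
  have := card_le_univ I
  rw [Fintype.card_fin] at this
  omega

/-- the density of the `k`-cliques -/
theorem density (hr : 1 ≤ r) (hW : 0 < Fintype.card W) {x : ℝ} (hx : 0 ≤ x) {T : ℕ}
    (hT : ((T - 1).choose (r - 1) : ℝ) * x < 1)
    (hd : (1 - x) * (Fintype.card W : ℝ) ^ r ≤ cnt B r r) :
    ∀ k, r ≤ k → k ≤ T →
      (1 - ((k - 1).choose (r - 1) : ℝ) * x) * Fintype.card W * cnt B r (k - 1) ≤ cnt B r k ∧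
      0 < cnt B r (k - 1) ∧
      (1 - ((T - 1).choose (r - 1) : ℝ) * x) ^ (k + 1 - r) * (Fintype.card W : ℝ) ^ k ≤
        cnt B r k := by
  set n : ℝ := (Fintype.card W : ℝ) with hn
  have hn0 : 0 < n := by rw [hn]; exact_mod_cast hW
  set y : ℝ := 1 - ((T - 1).choose (r - 1) : ℝ) * x with hy
  have hy0 : 0 < y := by linarith
  have hmono : ∀ k, k ≤ T → y ≤ 1 - ((k - 1).choose (r - 1) : ℝ) * x := by
    intro k hk
    have : ((k - 1).choose (r - 1) : ℝ) ≤ ((T - 1).choose (r - 1) : ℝ) := by
      exact_mod_cast Nat.choose_le_choose _ (by omega)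
    nlinarith
  intro k hk
  induction k, hk using Nat.le_induction with
  | base =>
    intro hrT
    have hc : (cnt B r (r - 1) : ℝ) = n ^ (r - 1) := by
      rw [cnt_pred hr]; push_cast; rfl
    have hpow : n ^ r = n * n ^ (r - 1) := by
      rw [← pow_succ']; congr 1; omega
    have hxr := hmono r hrT
    rw [Nat.choose_self] at *
    refine ⟨?_, ?_, ?_⟩
    · rw [hc]
      simp only [Nat.cast_one, one_mul]
      calc (1 - x) * n * n ^ (r - 1) = (1 - x) * n ^ r := by rw [hpow]; ring
        _ ≤ _ := hd
    · rw [cnt_pred hr]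
      positivity
    · have : r + 1 - r = 1 := by omega
      rw [this, pow_one]
      simp only [Nat.cast_one, one_mul] at hxr
      calc y * n ^ r ≤ (1 - x) * n ^ r := by gcongr
        _ ≤ _ := hd
  | succ k hrk ih =>
    intro hkT
    obtain ⟨h1, h2, h3⟩ := ih (by omega)
    have hk1 : 1 ≤ k := by omega
    have hck : 0 < (cnt B r k : ℝ) := by
      refine lt_of_lt_of_le ?_ h3
      positivity
    have hckm : 0 < (cnt B r (k - 1) : ℝ) := by exact_mod_cast h2
    -- de Caen's inequality
    have hm := main_ineq (B := B) hr (j := k - 1) (by omega)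
    have e1 : k - 1 + 1 = k := by omega
    have e2 : k - 1 + 2 = k + 1 := by omega
    rw [e1, e2] at hm
    have hm' : (k : ℝ) * (cnt B r k : ℝ) ^ 2 ≤ cnt B r (k - 1) *
        (((k : ℝ) + 1 - r) * cnt B r (k + 1) + ((r : ℝ) - 1) * n * cnt B r k) := by
      have hc1 : ((k + 1 - r : ℕ) : ℝ) = (k : ℝ) + 1 - r := by
        rw [Nat.cast_sub (by omega)]; push_cast; ring
      have hc2 : ((r - 1 : ℕ) : ℝ) = (r : ℝ) - 1 := by
        rw [Nat.cast_sub hr]; push_cast; ring
      rw [← hc1, ← hc2, hn]
      exact_mod_cast hm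
    have hkr : 0 < (k : ℝ) + 1 - r := by
      have : (r : ℝ) ≤ k := by exact_mod_cast hrk
      linarith
    -- the identity for binomial coefficients
    have hch : ((k : ℝ) + 1 - r) * (k.choose (r - 1) : ℝ) = k * ((k - 1).choose (r - 1) : ℝ) := by
      have h4 : (k - 1).succ * (k - 1).choose (r - 1) = k.choose (r - 1) * (k - (r - 1)) := by
        have := Nat.choose_mul_succ_eq (k - 1) (r - 1)
        rw [e1] at this
        rw [Nat.succ_eq_add_one, e1, mul_comm k, this]
      rw [Nat.succ_eq_add_one, e1] at h4
      have h5 : ((k - (r - 1) : ℕ) : ℝ) = (k : ℝ) + 1 - r := by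
        rw [Nat.cast_sub (by omega), Nat.cast_sub hr]; push_cast; ring
      rw [← h5, mul_comm, ← Nat.cast_mul, ← Nat.cast_mul, h4]
    have key : (1 - (k.choose (r - 1) : ℝ) * x) * n * cnt B r k ≤ cnt B r (k + 1) := by
      -- cancel `(k + 1 - r) * cnt (k - 1)`
      have hq : 0 < ((k : ℝ) + 1 - r) * cnt B r (k - 1) := by positivity
      refine le_of_mul_le_mul_left ?_ hq
      have e : ((k : ℝ) + 1 - r) * cnt B r (k - 1) * ((1 - (k.choose (r - 1) : ℝ) * x) * n * cnt B r k)
          = cnt B r (k - 1) * cnt B r k * n *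
            (((k : ℝ) + 1 - r) - ((k : ℝ) + 1 - r) * (k.choose (r - 1) : ℝ) * x) := by ring
      rw [e, hch]
      have h6 : (k : ℝ) * cnt B r k * ((1 - ((k - 1).choose (r - 1) : ℝ) * x) * n * cnt B r (k - 1))
          ≤ k * cnt B r k * cnt B r k := by gcongr
      nlinarith [hm', h6]
    refine ⟨by simpa using key, by simpa using (by exact_mod_cast hck : 0 < cnt B r k), ?_⟩
    have hyk : y ≤ 1 - (k.choose (r - 1) : ℝ) * x := by simpa using hmono (k + 1) hkT
    have e3 : k + 1 + 1 - r = (k + 1 - r) + 1 := by omega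
    rw [e3, pow_succ, pow_succ n k]
    calc y ^ (k + 1 - r) * y * (n ^ k * n) = y * n * (y ^ (k + 1 - r) * n ^ k) := by ring
      _ ≤ y * n * cnt B r k := by gcongr
      _ ≤ (1 - (k.choose (r - 1) : ℝ) * x) * n * cnt B r k := by gcongr
      _ ≤ _ := key

end clique

section blowup

/-- the number of non-injective tuples is small -/
theorem card_noninj (W : Type) [Fintype W] [DecidableEq W] (K : ℕ) (hK : K ≤ Fintype.card W)
    (hW : 0 < Fintype.card W) :
    ((univ.filter fun y : Fin K → W => ¬ Function.Injective y).card : ℝ) ≤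
      K ^ 2 / Fintype.card W * (Fintype.card W : ℝ) ^ K := by
  set n : ℝ := (Fintype.card W : ℝ) with hn
  have hn0 : 0 < n := by rw [hn]; exact_mod_cast hW
  have h1 : (univ.filter fun y : Fin K → W => Function.Injective y).card =
      (Fintype.card W).descFactorial K := by
    rw [← Fintype.card_subtype, Fintype.card_congr (Equiv.subtypeInjectiveEquivEmbedding (Fin K) W),
      Fintype.card_embedding_eq, Fintype.card_fin]
  have h2 := card_filter_add_card_filter_not (s := (univ : Finset (Fin K → W)))
    (fun y => Function.Injective y)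
  rw [card_univ, Fintype.card_fun, Fintype.card_fin, h1] at h2
  have h3 : (Fintype.card W + 1 - K) ^ K ≤ (Fintype.card W).descFactorial K :=
    Nat.pow_sub_le_descFactorial _ _
  have h4 : (n - K) ^ K ≤ (Fintype.card W).descFactorial K := by
    calc (n - K) ^ K ≤ ((Fintype.card W + 1 - K : ℕ) : ℝ) ^ K := by
          have h0 : 0 ≤ n - K := by
            have : (K : ℝ) ≤ n := by rw [hn]; exact_mod_cast hK
            linarith
          apply pow_le_pow_left₀ h0
          rw [Nat.cast_sub (by omega)]
          push_cast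
          linarith
      _ ≤ _ := by exact_mod_cast h3
  have h5 : (1 - (K : ℝ) ^ 2 / n) * n ^ K ≤ (n - K) ^ K := by
    have h6 : (n - K) ^ K = (1 + (-(K / n))) ^ K * n ^ K := by
      rw [← mul_pow]; congr 1; field_simp; ring
    rw [h6]
    gcongr
    have h7 := one_add_mul_le_pow (a := -((K : ℝ) / n)) (by
      have : (K : ℝ) / n ≤ 1 := by
        rw [div_le_one hn0, hn]; exact_mod_cast hK
      linarith) K
    calc 1 - (K : ℝ) ^ 2 / n = 1 + (K : ℝ) * -(K / n) := by ring
      _ ≤ _ := h7
  have h8 : ((univ.filter fun y : Fin K → W => ¬ Function.Injective y).card : ℝ) =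
      n ^ K - (Fintype.card W).descFactorial K := by
    rw [eq_sub_iff_add_eq', hn]
    exact_mod_cast h2
  rw [h8]
  linarith

/-- Erdős' theorem: a dense set of `T`-tuples contains a product of `K`-sets -/
theorem blowup (K : ℕ) (hK : 1 ≤ K) : ∀ (T : ℕ) (δ : ℝ), 0 < δ → ∃ n₀ : ℕ, ∀ (W : Type)
    [Fintype W] [DecidableEq W], n₀ ≤ Fintype.card W → ∀ E : Finset (Fin T → W),
      δ * (Fintype.card W : ℝ) ^ T ≤ E.card →
      ∃ A : Fin T → Finset W, (∀ i, (A i).card = K) ∧
        ∀ x : Fin T → W, (∀ i, x i ∈ A i) → x ∈ E := by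
  classical
  intro T
  induction T with
  | zero =>
    intro δ hδ
    refine ⟨0, fun W _ _ _ E hE => ⟨Fin.elim0, fun i => i.elim0, fun x _ => ?_⟩⟩
    have h1 : 0 < E.card := by
      have : (0 : ℝ) < E.card := lt_of_lt_of_le (by simpa using hδ) hE
      exact_mod_cast this
    obtain ⟨y, hy⟩ := card_pos.1 h1
    rwa [Subsingleton.elim x y]
  | succ T ih =>
    intro δ hδ
    obtain ⟨n₁, hn₁⟩ := ih (δ ^ K / 2) (by positivity)
    refine ⟨max (max n₁ K) (⌊2 * (K : ℝ) ^ 2 / δ ^ K⌋₊ + 1), fun W _ _ hW E hE => ?_⟩
    have hW1 : n₁ ≤ Fintype.card W := (le_max_left _ _).trans ((le_max_left _ _).trans hW)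
    have hWK : K ≤ Fintype.card W := (le_max_right _ _).trans ((le_max_left _ _).trans hW)
    have hW2 : 2 * (K : ℝ) ^ 2 / δ ^ K < Fintype.card W := by
      have h := (le_max_right (max n₁ K) (⌊2 * (K : ℝ) ^ 2 / δ ^ K⌋₊ + 1)).trans hW
      calc 2 * (K : ℝ) ^ 2 / δ ^ K < ⌊2 * (K : ℝ) ^ 2 / δ ^ K⌋₊ + 1 := Nat.lt_floor_add_one _
        _ ≤ _ := by exact_mod_cast h
    have hW0 : 0 < Fintype.card W := by omega
    set n : ℝ := (Fintype.card W : ℝ) with hn
    have hn0 : 0 < n := by rw [hn]; exact_mod_cast hW0
    set F : (Fin K → W) → Finset (Fin T → W) := fun y =>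
      univ.filter fun u => ∀ j, (Fin.cons (y j) u : Fin (T + 1) → W) ∈ E with hF
    -- there is an injective `y` with `F y` large
    obtain ⟨y, hyinj, hy⟩ : ∃ y : Fin K → W, Function.Injective y ∧
        δ ^ K / 2 * n ^ T ≤ (F y).card := by
      by_contra hcon
      push Not at hcon
      -- total count
      set d : (Fin T → W) → ℕ := fun u =>
        (univ.filter fun z : W => (Fin.cons z u : Fin (T + 1) → W) ∈ E).card with hd
      have hsum : ∑ y : Fin K → W, ((F y).card : ℝ) = ∑ u : Fin T → W, (d u : ℝ) ^ K := by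
        have : ∑ y : Fin K → W, (F y).card = ∑ u : Fin T → W, d u ^ K := by
          simp only [hF, card_filter]
          rw [sum_comm]
          refine sum_congr rfl fun u _ => ?_
          rw [← card_filter]
          have e : (univ.filter fun y : Fin K → W => ∀ j, (Fin.cons (y j) u : Fin (T + 1) → W) ∈ E)
              = Fintype.piFinset fun _ : Fin K =>
                (univ.filter fun z : W => (Fin.cons z u : Fin (T + 1) → W) ∈ E) := by
            ext y
            simp
          rw [e, Fintype.card_piFinset]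
          simp [hd]
        exact_mod_cast this
      have hEd : (E.card : ℝ) = ∑ u : Fin T → W, (d u : ℝ) := by
        have : E.card = ∑ u : Fin T → W, d u := by
          have e : E = univ.filter fun x => x ∈ E := by simp
          rw [e, card_filter, ← (Fin.consEquiv (fun _ => W)).sum_comp, Fintype.sum_prod_type_right]
          refine sum_congr rfl fun u _ => ?_
          simp only [hd, card_filter]
          refine sum_congr rfl fun z _ => ?_
          by_cases h : (Fin.cons z u : Fin (T + 1) → W) ∈ E <;> simp [Fin.consEquiv, h]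
        exact_mod_cast this
      have hjen : (δ * n ^ (T + 1)) ^ K / (n ^ T) ^ (K - 1) ≤ ∑ u : Fin T → W, (d u : ℝ) ^ K := by
        obtain ⟨K', rfl⟩ : ∃ K', K = K' + 1 := ⟨K - 1, by omega⟩
        have h := pow_sum_div_card_le_sum_pow (s := (univ : Finset (Fin T → W)))
          (f := fun u => (d u : ℝ)) (n := K') (fun u _ => by positivity)
        rw [card_univ, Fintype.card_fun, Fintype.card_fin, ← hEd] at h
        refine le_trans ?_ h
        push_cast
        rw [← hn]
        gcongr
      have hjen' : δ ^ K * n ^ K * n ^ T ≤ ∑ u : Fin T → W, (d u : ℝ) ^ K := by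
        refine le_trans (le_of_eq ?_) hjen
        obtain ⟨K', rfl⟩ : ∃ K', K = K' + 1 := ⟨K - 1, by omega⟩
        rw [Nat.add_sub_cancel, eq_div_iff (by positivity)]
        ring
      -- the upper bound
      have hup : ∑ y : Fin K → W, ((F y).card : ℝ) ≤
          n ^ K * (δ ^ K / 2 * n ^ T) + K ^ 2 / n * n ^ K * n ^ T := by
        rw [← sum_filter_add_sum_filter_not univ (fun y : Fin K → W => Function.Injective y)]
        apply add_le_add
        · calc _ ≤ ∑ _y ∈ univ.filter (fun y : Fin K → W => Function.Injective y),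
                δ ^ K / 2 * n ^ T := by
                refine sum_le_sum fun y hy => ?_
                exact (hcon y (by simpa using hy)).le
            _ ≤ _ := by
                rw [sum_const, nsmul_eq_mul]
                gcongr
                calc (((univ.filter (fun y : Fin K → W => Function.Injective y)).card : ℕ) : ℝ)
                    ≤ ((univ : Finset (Fin K → W)).card : ℝ) := by
                      exact_mod_cast card_filter_le _ _
                  _ = n ^ K := by simp [hn]
        · calc _ ≤ ∑ _y ∈ univ.filter (fun y : Fin K → W => ¬ Function.Injective y), n ^ T := by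
                refine sum_le_sum fun y _ => ?_
                calc ((F y).card : ℝ) ≤ ((univ : Finset (Fin T → W)).card : ℝ) := by
                      exact_mod_cast card_filter_le _ _
                  _ = n ^ T := by simp [hn]
            _ ≤ _ := by
                rw [sum_const, nsmul_eq_mul]
                gcongr
                exact card_noninj W K hWK hW0
      rw [hsum] at hup
      have h9 := hjen'.trans hup
      have h10 : δ ^ K * n ^ K * n ^ T ≤ (δ ^ K / 2 + K ^ 2 / n) * (n ^ K * n ^ T) := by
        calc _ ≤ _ := h9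
          _ = _ := by ring
      have h11 : δ ^ K ≤ δ ^ K / 2 + K ^ 2 / n := by
        have hp : 0 < n ^ K * n ^ T := by positivity
        refine le_of_mul_le_mul_right ?_ hp
        calc δ ^ K * (n ^ K * n ^ T) = δ ^ K * n ^ K * n ^ T := by ring
          _ ≤ _ := h10
      have h12 : (K : ℝ) ^ 2 / n < δ ^ K / 2 := by
        rw [div_lt_iff₀ (by positivity)] at hW2
        rw [div_lt_iff₀ hn0]
        nlinarith
      linarith
    obtain ⟨A, hA, hAE⟩ := hn₁ W hW1 (F y) hy
    refine ⟨Fin.cons (univ.image y) A, ?_, ?_⟩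
    · intro i
      refine Fin.cases ?_ (fun i => ?_) i
      · simp [card_image_of_injective _ hyinj]
      · simpa using hA i
    · intro x hx
      have h0 := hx 0
      simp only [Fin.cons_zero, mem_image, mem_univ, true_and] at h0
      obtain ⟨j, hj⟩ := h0
      have h1 : Fin.tail x ∈ F y := hAE _ fun i => by simpa [Fin.tail] using hx i.succ
      simp only [hF, mem_filter, mem_univ, true_and] at h1
      have h2 := h1 j
      rw [hj, Fin.cons_self_tail] at h2
      exact h2

/-- **Turán density of complete multipartite hypergraphs**, de Caen's bound. -/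
theorem turan_blowup {r T K : ℕ} (hr : 1 ≤ r) (hT : r ≤ T) (hK : 1 ≤ K) {x : ℝ} (hx : 0 ≤ x)
    (hxT : ((T - 1).choose (r - 1) : ℝ) * x < 1) :
    ∃ n₀ : ℕ, ∀ (W : Type) [Fintype W] [DecidableEq W], n₀ ≤ Fintype.card W →
      ∀ B : Finset (Finset W), (1 - x) * (Fintype.card W : ℝ) ^ r ≤ cnt B r r →
      ∃ A : Fin T → Finset W, (∀ i, (A i).card = K) ∧
        ∀ u : Fin T → W, (∀ i, u i ∈ A i) → Clq B r u := by
  classical
  obtain ⟨n₀, hn₀⟩ := blowup K hK T ((1 - ((T - 1).choose (r - 1) : ℝ) * x) ^ (T + 1 - r)) (by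
    apply pow_pos; linarith)
  refine ⟨max n₀ 1, fun W _ _ hW B hB => ?_⟩
  have hW0 : 0 < Fintype.card W := (le_max_right n₀ 1).trans hW
  obtain ⟨_, _, h⟩ := density hr hW0 hx hxT hB T hT le_rfl
  obtain ⟨A, hA, hA2⟩ := hn₀ W ((le_max_left n₀ 1).trans hW)
    (univ.filter fun u : Fin T → W => Clq B r u) h
  exact ⟨A, hA, fun u hu => by simpa using hA2 u hu⟩

end blowup

end Pool.Agent.H461R2.PD
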