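import Mathlib

/-!
# Consequences of the coloured Maynard-Tao theorem for translates
-/

namespace Pool.Agent.H461R2.PD

open Finset

/-- the coloured Maynard-Tao theorem (`Pool.Agent.H362R2.CM.quarter`) -/
def Quarter : Prop := ∀ T : ℕ, ∃ K : ℕ, 1 ≤ K ∧ ∀ (a b : Fin T → Fin K → ℤ), (∀ g i, 0 < a g i) →
    Function.Injective (fun x : Fin T × Fin K => (a x.1 x.2, b x.1 x.2)) →
    (∀ p : ℕ, p.Prime → ∃ n : ℤ, ∀ g i, ¬ ((p : ℤ) ∣ a g i * n + b g i)) →
    ∃ (S : Finset (Fin T)) (c : Fin T → Fin K), T ≤ 4 * S.card ∧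
      {n : ℕ | ∀ g ∈ S, 0 < a g (c g) * (n : ℤ) + b g (c g) ∧
        Prime (a g (c g) * (n : ℤ) + b g (c g))}.Infinite

/-- admissible families of shifts -/
def Adm {T K : ℕ} (H : Fin T → Fin K → ℕ) : Prop :=
  Function.Injective (fun x : Fin T × Fin K => H x.1 x.2) ∧
  ∀ p : ℕ, p.Prime → ∃ n : ℤ, ∀ g i, ¬ ((p : ℤ) ∣ n + H g i)

/-- if the number of shifts is small the primes are no obstruction -/
theorem exists_shift {T K p : ℕ} (hp : p.Prime) (hTK : T * K < p) (H : Fin T → Fin K → ℕ) :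
    ∃ n : ℤ, ∀ g i, ¬ ((p : ℤ) ∣ n + H g i) := by
  have : Fact p.Prime := ⟨hp⟩
  classical
  set s : Finset (ZMod p) := univ.image fun x : Fin T × Fin K => -(H x.1 x.2 : ZMod p) with hs
  have hc : s.card < Fintype.card (ZMod p) := by
    calc s.card ≤ (univ : Finset (Fin T × Fin K)).card := card_image_le
      _ = T * K := by simp
      _ < p := hTK
      _ = _ := (ZMod.card p).symm
  obtain ⟨n, hn⟩ : ∃ n : ZMod p, n ∉ s := by
    by_contra h
    push Not at h
    have : s = univ := by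
      ext x; simp [h x]
    rw [this, card_univ] at hc
    exact lt_irrefl _ hc
  refine ⟨n.val, fun g i hd => hn ?_⟩
  rw [hs, mem_image]
  refine ⟨(g, i), mem_univ _, ?_⟩
  have h1 := (ZMod.intCast_zmod_eq_zero_iff_dvd _ p).2 hd
  push_cast at h1
  rw [ZMod.natCast_zmod_val] at h1
  rw [eq_comm, eq_neg_iff_add_eq_zero]
  exact h1

/-- among `T` classes at least `T / 4` are hit simultaneously by primes -/
theorem hit (hQ : Quarter) (T : ℕ) : ∃ K : ℕ, 1 ≤ K ∧ ∀ H : Fin T → Fin K → ℕ, Adm H →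
    ∃ (S : Finset (Fin T)) (c : Fin T → Fin K), T ≤ 4 * S.card ∧
      {n : ℕ | ∀ g ∈ S, (n + H g (c g)).Prime}.Infinite := by
  obtain ⟨K, hK, h⟩ := hQ T
  refine ⟨K, hK, fun H hH => ?_⟩
  obtain ⟨S, c, hS, hinf⟩ := h (fun _ _ => 1) (fun g i => (H g i : ℤ)) (fun _ _ => one_pos)
    (by
      intro x y hxy
      apply hH.1
      simpa using hxy)
    (by
      intro p hp
      obtain ⟨n, hn⟩ := hH.2 p hp
      exact ⟨n, fun g i => by simpa using hn g i⟩)
  refine ⟨S, c, hS, hinf.mono ?_⟩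
  intro n hn g hg
  have := (hn g hg).2
  rw [Nat.prime_iff_prime_int]
  push_cast
  simpa using this

/-- the gaps between consecutive primes that occur infinitely often -/
def Gap : Set ℕ := {d | {n : ℕ | n.Prime ∧ (n + d).Prime ∧ 0 < d ∧
  ∀ m, n < m → m < n + d → ¬ m.Prime}.Infinite}

open Classical in
/-- two classes contain the end points of gaps between consecutive primes -/
theorem consec (hQ : Quarter) : ∃ K : ℕ, 1 ≤ K ∧ ∀ H : Fin 5 → Fin K → ℕ, Adm H →
    ∃ g g' i i', g ≠ g' ∧ H g i < H g' i' ∧ H g' i' - H g i ∈ Gap := by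
  obtain ⟨K, hK, h⟩ := hQ 5
  refine ⟨K, hK, fun H hH => ?_⟩
  -- a bound for the shifts
  obtain ⟨M, hM⟩ : ∃ M, ∀ g i, H g i ≤ M :=
    ⟨univ.sup fun x : Fin 5 × Fin K => H x.1 x.2, fun g i =>
      le_sup (f := fun x : Fin 5 × Fin K => H x.1 x.2) (mem_univ (g, i))⟩
  set q : ℕ → ℕ := fun t => Nat.nth Nat.Prime (M + t) with hq
  have hqp : ∀ t, (q t).Prime := fun t => Nat.prime_nth_prime _
  have hqM : ∀ t, M + t < q t := fun t => by
    have := Nat.add_two_le_nth_prime (M + t)
    simp only [hq]; omega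
  have hqinj : Function.Injective q := by
    intro s t hst
    have := Nat.nth_injective Nat.infinite_setOfPred_prime hst
    omega
  set U : Finset ℕ := (range (M + 1)).filter fun t => ∀ g i, H g i ≠ t with hU
  have hpair : Set.Pairwise (U : Set ℕ) (Function.onFun Nat.Coprime q) := by
    intro s _ t _ hst
    exact (Nat.coprime_primes (hqp s) (hqp t)).2 fun h => hst (hqinj h)
  obtain ⟨r, hr⟩ := Nat.chineseRemainderOfFinset (fun t => q t - t) q U
    (fun t _ => (hqp t).ne_zero) hpair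
  have hr' : ∀ t ∈ U, q t ∣ r + t := by
    intro t ht
    have h1 := (hr t ht).add_right t
    have h2 : q t - t + t = q t := by have := hqM t; omega
    rw [h2] at h1
    exact (Nat.modEq_zero_iff_dvd.1 (h1.trans (by simp [Nat.ModEq])))
  set Q : ℕ := ∏ t ∈ U, q t with hQdef
  have hQ0 : 0 < Q := prod_pos fun t _ => (hqp t).pos
  obtain ⟨S, c, hS, hinf⟩ := h (fun _ _ => (Q : ℤ)) (fun g i => ((r + H g i : ℕ) : ℤ))
    (fun _ _ => by exact_mod_cast hQ0)
    (by
      intro x y hxy
      apply hH.1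
      simp only [Prod.mk.injEq, Nat.cast_inj, true_and] at hxy
      exact Nat.add_left_cancel hxy)
    (by
      intro p hp
      by_cases hpQ : p ∣ Q
      · refine ⟨0, fun g i hd => ?_⟩
        obtain ⟨t, htU, hpt⟩ := (hp.prime.dvd_finsetProd_iff _).1 hpQ
        have hpq : p = q t := (Nat.prime_dvd_prime_iff_eq hp (hqp t)).1 hpt
        rw [mul_zero, zero_add] at hd
        have hd' : q t ∣ r + H g i := by rw [← hpq]; exact_mod_cast hd
        have h1 := hr' t htU
        have hne : H g i ≠ t := (mem_filter.1 htU).2 g i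
        have htM : t ≤ M := by
          have := (mem_filter.1 htU).1
          rw [mem_range] at this; omega
        have h2 : (q t : ℤ) ∣ (H g i : ℤ) - t := by
          have h3 : (q t : ℤ) ∣ ((r + H g i : ℕ) : ℤ) - ((r + t : ℕ) : ℤ) :=
            dvd_sub (by exact_mod_cast hd') (by exact_mod_cast h1)
          push_cast at h3
          have e : (r : ℤ) + H g i - (r + t) = H g i - t := by ring
          rwa [e] at h3
        have h4 : |(H g i : ℤ) - t| < q t := by
          have := hqM t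
          have h5 := hM g i
          rw [abs_lt]
          constructor <;> omega
        have h6 := Int.eq_zero_of_abs_lt_dvd h2 h4
        omega
      · obtain ⟨n₀, hn₀⟩ := hH.2 p hp
        have hcop : IsCoprime (Q : ℤ) (p : ℤ) := by
          rw [Nat.isCoprime_iff_coprime]
          exact ((Nat.Prime.coprime_iff_not_dvd hp).2 hpQ).symm
        obtain ⟨u, v, huv⟩ := hcop
        refine ⟨u * (n₀ - r), fun g i hd => hn₀ g i ?_⟩
        push_cast at hd
        have e : n₀ + (H g i : ℤ) = ((Q : ℤ) * (u * (n₀ - r)) + (r + H g i)) +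
            p * (v * (n₀ - r)) := by
          linear_combination (-(n₀ - (r : ℤ))) * huv
        rw [e]
        exact dvd_add hd (dvd_mul_right _ _))
  -- two classes
  have hS2 : 1 < S.card := by omega
  obtain ⟨g₁, hg₁, g₂, hg₂, hg12⟩ := one_lt_card.1 hS2
  set X : Set ℕ := {n : ℕ | 2 ≤ n ∧ ∀ g ∈ S, (Q * n + r + H g (c g)).Prime} with hX
  have hXinf : X.Infinite := by
    have h1 : {n : ℕ | ∀ g ∈ S, 0 < (Q : ℤ) * (n : ℤ) + ((r + H g (c g) : ℕ) : ℤ) ∧
        Prime ((Q : ℤ) * (n : ℤ) + ((r + H g (c g) : ℕ) : ℤ))} \ {n | n < 2} ⊆ X := by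
      rintro n ⟨hn, hn2⟩
      refine ⟨by have h2 : ¬ n < 2 := hn2; omega, fun g hg => ?_⟩
      have := (hn g hg).2
      rw [Nat.prime_iff_prime_int]
      push_cast at this ⊢
      rwa [add_assoc]
    exact (hinf.sdiff (Set.finite_lt_nat 2)).mono h1
  -- the sets of `n` for a given pair of shifts
  set Y : (Fin 5 × Fin K) × (Fin 5 × Fin K) → Set ℕ := fun x =>
    {n | x.1.1 ≠ x.2.1 ∧ H x.1.1 x.1.2 < H x.2.1 x.2.2 ∧ (Q * n + r + H x.1.1 x.1.2).Prime ∧
      (Q * n + r + H x.2.1 x.2.2).Prime ∧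
      ∀ m, Q * n + r + H x.1.1 x.1.2 < m → m < Q * n + r + H x.2.1 x.2.2 → ¬ m.Prime} with hY
  have hcover : X ⊆ ⋃ x, Y x := by
    rintro n ⟨hn2, hn⟩
    -- non-shifts give composite numbers
    have hcomp : ∀ t ≤ M, (∀ g i, H g i ≠ t) → ¬ (Q * n + r + t).Prime := by
      intro t ht hne hpr
      have htU : t ∈ U := by
        rw [hU, mem_filter, mem_range]; exact ⟨by omega, hne⟩
      have h1 : q t ∣ Q * n + r + t := by
        rw [add_assoc]
        exact dvd_add ((dvd_prod_of_mem q htU).mul_right n) (hr' t htU)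
      have h2 : q t = Q * n + r + t := (Nat.prime_dvd_prime_iff_eq (hqp t) hpr).1 h1
      have h3 : q t ≤ Q := Nat.le_of_dvd hQ0 (dvd_prod_of_mem q htU)
      have h4 := (hqp t).pos
      nlinarith
    -- order the two classes
    obtain ⟨g, hg, g', hg', hne, hlt⟩ : ∃ g ∈ S, ∃ g' ∈ S, g ≠ g' ∧ H g (c g) < H g' (c g') := by
      rcases lt_trichotomy (H g₁ (c g₁)) (H g₂ (c g₂)) with hl | he | hl
      · exact ⟨g₁, hg₁, g₂, hg₂, hg12, hl⟩
      · exfalso
        have := hH.1 (a₁ := (g₁, c g₁)) (a₂ := (g₂, c g₂)) he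
        exact hg12 (Prod.mk.inj this).1
      · exact ⟨g₂, hg₂, g₁, hg₁, hg12.symm, hl⟩
    -- the largest prime of class `g`
    set A : Finset (Fin K) := univ.filter fun i => (Q * n + r + H g i).Prime ∧ H g i < H g' (c g')
      with hA
    have hAne : A.Nonempty := ⟨c g, by simp [hA, hn g hg, hlt]⟩
    obtain ⟨i, hiA, hi⟩ := exists_max_image A (fun i => H g i) hAne
    simp only [hA, mem_filter, mem_univ, true_and] at hiA
    -- the next prime
    set C : Finset (Fin 5 × Fin K) := univ.filter fun x =>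
      (Q * n + r + H x.1 x.2).Prime ∧ H g i < H x.1 x.2 ∧ H x.1 x.2 ≤ H g' (c g') with hC
    have hCne : C.Nonempty := ⟨(g', c g'), by simp [hC, hn g' hg', hiA.2]⟩
    obtain ⟨⟨g'', i''⟩, hxC, hx⟩ := exists_min_image C (fun x => H x.1 x.2) hCne
    simp only [hC, mem_filter, mem_univ, true_and] at hxC
    simp only [Set.mem_iUnion]
    refine ⟨((g, i), (g'', i'')), ?_, hxC.2.1, hiA.1, hxC.1, ?_⟩
    · rintro heq
      simp only at heq
      subst heq
      rcases hxC.2.2.lt_or_eq with h1 | h1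
      · have := hi i'' (by simp only [hA, mem_filter, mem_univ, true_and]; exact ⟨hxC.1, h1⟩)
        have := hxC.2.1
        omega
      · have := hH.1 (a₁ := (g, i'')) (a₂ := (g', c g')) h1
        exact hne (Prod.mk.inj this).1
    · intro m hm1 hm2 hmp
      simp only at hm1 hm2
      obtain ⟨t, rfl⟩ : ∃ t, m = Q * n + r + t := ⟨m - (Q * n + r), by omega⟩
      have htM : t ≤ M := by have := hM g'' i''; omega
      by_cases hex : ∃ g₀ i₀, H g₀ i₀ = t
      · obtain ⟨g₀, i₀, rfl⟩ := hex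
        have := hx (g₀, i₀) (by
          simp only [hC, mem_filter, mem_univ, true_and]
          refine ⟨hmp, by omega, ?_⟩
          have := hxC.2.2
          omega)
        simp only at this
        omega
      · push Not at hex
        exact hcomp t htM hex hmp
  obtain ⟨x, hx⟩ : ∃ x, (Y x).Infinite := by
    by_contra hcon
    push Not at hcon
    have : (⋃ x, Y x).Finite := Set.finite_iUnion fun x => by simpa using hcon x
    exact hXinf (this.subset hcover)
  obtain ⟨n₀, hn₀⟩ := hx.nonempty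
  refine ⟨x.1.1, x.2.1, x.1.2, x.2.2, hn₀.1, hn₀.2.1, ?_⟩
  -- the gap occurs infinitely often
  have hinj : Function.Injective fun n : ℕ => Q * n + r + H x.1.1 x.1.2 := by
    intro a b hab
    simp only at hab
    exact Nat.eq_of_mul_eq_mul_left hQ0 (by omega)
  refine (hx.image hinj.injOn).mono ?_
  rintro _ ⟨n, hn, rfl⟩
  obtain ⟨_, hlt, hp1, hp2, hno⟩ := hn
  have e : Q * n + r + H x.1.1 x.1.2 + (H x.2.1 x.2.2 - H x.1.1 x.1.2) =
      Q * n + r + H x.2.1 x.2.2 := by omega
  refine ⟨hp1, ?_, by omega, ?_⟩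
  · simp only; rw [e]; exact hp2
  · simp only; rw [e]; exact hno

end Pool.Agent.H461R2.PD
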