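import Pool.Agent.H461R2.PD.Comb
import Pool.Agent.H461R2.PD.Hit

/-!
# The proportion of prime tuples and of prime gaps
-/

namespace Pool.Agent.H461R2.PD

open Finset

/-- the positive integers up to `N` without prime factors up to `z` -/
def rough (z N : ℕ) : Finset ℕ :=
  (Icc 1 N).filter fun n => ∀ p, p ≤ z → p.Prime → ¬ p ∣ n

theorem rough_large (z m : ℕ) : ∃ N₀, ∀ N ≥ N₀, m ≤ (rough z N).card := by
  refine ⟨m * z.factorial + 1, fun N hN => ?_⟩
  have h : (range m).image (fun j => j * z.factorial + 1) ⊆ rough z N := by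
    intro n hn
    rw [mem_image] at hn
    obtain ⟨j, hj, rfl⟩ := hn
    rw [mem_range] at hj
    rw [rough, mem_filter, mem_Icc]
    refine ⟨⟨by omega, ?_⟩, ?_⟩
    · have : j * z.factorial ≤ m * z.factorial := Nat.mul_le_mul_right _ hj.le
      omega
    · intro p hpz hp hd
      have h1 : p ∣ j * z.factorial := (Nat.dvd_factorial hp.pos hpz).mul_left j
      have h2 : p ∣ 1 := (Nat.dvd_add_right h1).1 hd
      exact hp.one_lt.ne' (Nat.dvd_one.1 h2)
  calc m = ((range m).image (fun j => j * z.factorial + 1)).card := by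
        rw [card_image_of_injective, card_range]
        intro a b hab
        have h0 : 0 < z.factorial := Nat.factorial_pos z
        exact Nat.eq_of_mul_eq_mul_right h0 (by simpa using hab)
    _ ≤ _ := card_le_card h

/-- `V` misses a residue class modulo every prime up to `z` -/
def Miss (z : ℕ) (V : Finset ℕ) : Prop :=
  ∀ p, p ≤ z → p.Prime → ∃ r : ℕ, ∀ v ∈ V, ¬ v ≡ r [MOD p]

theorem miss_rough (z N : ℕ) : Miss z (rough z N) := by
  intro p hpz hp
  refine ⟨0, fun v hv h => ?_⟩
  exact (mem_filter.1 hv).2 p hpz hp ((Nat.modEq_zero_iff_dvd).1 h)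

section cliques

/-- parts of a complete multipartite structure are disjoint -/
theorem parts_disjoint {W : Type} [Fintype W] [DecidableEq W] {B : Finset (Finset W)} {r T : ℕ}
    (hB : ∀ I ∈ B, I.card = r) (hr : 2 ≤ r) (hT : r ≤ T) {A : Fin T → Finset W}
    (hne : ∀ i, (A i).Nonempty)
    (hA : ∀ u : Fin T → W, (∀ i, u i ∈ A i) → Clq B r u) {g g' : Fin T} (hg : g ≠ g') {w : W}
    (h1 : w ∈ A g) (h2 : w ∈ A g') : False := by
  classical
  choose v hv using hne
  set u : Fin T → W := fun i => if i = g ∨ i = g' then w else v i with hu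
  have hu1 : ∀ i, u i ∈ A i := by
    intro i
    simp only [hu]
    split_ifs with h
    · rcases h with rfl | rfl
      · exact h1
      · exact h2
    · exact hv i
  have hc : ({g, g'} : Finset (Fin T)).card ≤ r := by rw [card_pair hg]; exact hr
  obtain ⟨I, hI1, _, hI2⟩ := exists_subsuperset_card_eq (subset_univ ({g, g'} : Finset (Fin T)))
    hc (by rw [card_univ, Fintype.card_fin]; exact hT)
  have h3 := hB _ (hA u hu1 I hI2)
  have h4 : Set.InjOn u (I : Set (Fin T)) := by
    rw [← card_image_iff, h3, hI2]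
  have hgI : g ∈ I := hI1 (by simp)
  have hgI' : g' ∈ I := hI1 (by simp)
  apply hg
  apply h4 hgI hgI'
  simp [hu]

/-- a large set contains a large subset inside one residue class -/
theorem exists_class {W : Type} [DecidableEq W] (f : W → ℕ) {A : Finset W} {K Q : ℕ} (hQ : 0 < Q)
    (hA : A.card = Q * K) : ∃ (r : ℕ) (A' : Finset W), A' ⊆ A ∧ A'.card = K ∧
      ∀ a ∈ A', f a ≡ r [MOD Q] := by
  obtain ⟨r, _, hr⟩ := exists_le_card_fiber_of_mul_le_card_of_maps_to
    (s := A) (t := range Q) (f := fun a => f a % Q) (n := K)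
    (fun a _ => mem_range.2 (Nat.mod_lt _ hQ)) (nonempty_range_iff.2 hQ.ne')
    (by rw [card_range, hA])
  obtain ⟨A', h1, h2⟩ := exists_subset_card_eq hr
  refine ⟨r, A', h1.trans (filter_subset _ _), h2, fun a ha => ?_⟩
  have h3 := (mem_filter.1 (h1 ha)).2
  rw [← h3]
  exact (Nat.mod_modEq _ _).symm

open Classical in
/-- numbering the parts -/
theorem exists_family {V : Finset ℕ} {B : Finset (Finset V)} {r T K Q : ℕ} (hV : Miss T V)
    (hB : ∀ I ∈ B, I.card = r) (hr2 : T = 1 ∨ 2 ≤ r) (hT : r ≤ T) (hK : 1 ≤ K)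
    (hQ0 : 0 < Q) (hQ : ∀ p, p ≤ T * K → p.Prime → p ∣ Q)
    {A : Fin T → Finset V} (hAK : ∀ i, (A i).card = Q * K)
    (hA : ∀ u : Fin T → V, (∀ i, u i ∈ A i) → Clq B r u) :
    ∃ H : Fin T → Fin K → V, Adm (fun g i => (H g i : ℕ)) ∧
      ∀ c : Fin T → Fin K, Clq B r fun g => H g (c g) := by
  have hne : ∀ i, (A i).Nonempty := fun i => card_pos.1 (by rw [hAK i]; exact Nat.mul_pos hQ0 hK)
  choose ρ A' hA1 hA2 hA3 using fun i => exists_class (fun v : V => (v : ℕ)) hQ0 (hAK i)
  set e : ∀ g, Fin K ≃ A' g := fun g => ((A' g).equivFinOfCardEq (hA2 g)).symm with he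
  have heA : ∀ g i, (e g i : V) ∈ A g := fun g i => hA1 g (e g i).2
  refine ⟨fun g i => (e g i : V), ⟨?_, ?_⟩, ?_⟩
  · rintro ⟨g, i⟩ ⟨g', i'⟩ hx
    simp only at hx
    have hx' : (e g i : V) = e g' i' := Subtype.ext hx
    have hgg : g = g' := by
      by_contra hgg
      rcases hr2 with h1 | h2
      · subst h1
        exact hgg (Subsingleton.elim _ _)
      · exact parts_disjoint hB h2 hT hne hA hgg (heA g i) (by rw [hx']; exact heA g' i')
    subst hgg
    have : e g i = e g i' := Subtype.ext hx'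
    rw [(e g).injective this]
  · intro p hp
    rcases le_or_gt p (T * K) with hpz | hpz
    · rcases le_or_gt p T with hpT | hpT
      · obtain ⟨r, hr⟩ := hV p hpT hp
        refine ⟨-(r : ℤ), fun g i hd => hr _ (e g i : V).2 ?_⟩
        rw [← Int.natCast_modEq_iff]
        exact (Int.modEq_iff_dvd.2 (by
          have e : ((e g i : V) : ℤ) - (r : ℤ) = -(r : ℤ) + ((e g i : V) : ℕ) := by
            ring
          rw [e]; exact hd)).symm
      · have : Fact p.Prime := ⟨hp⟩
        obtain ⟨n, hn⟩ := exists_shift (T := T) (K := 1) hp (by omega) (fun g _ => ρ g)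
        refine ⟨n, fun g i hd => hn g 0 ?_⟩
        have h1 : (((e g i : V) : ℕ) : ZMod p) = (ρ g : ZMod p) := by
          rw [ZMod.natCast_eq_natCast_iff]
          exact (hA3 g _ (e g i).2).of_dvd (hQ p hpz hp)
        have h2 := (ZMod.intCast_zmod_eq_zero_iff_dvd _ p).2 hd
        rw [← ZMod.intCast_zmod_eq_zero_iff_dvd]
        push_cast at h2 ⊢
        rw [← h1]
        exact h2
    · exact exists_shift hp hpz _
  · intro c
    exact hA _ fun g => heA g (c g)

end cliques

/-- the shifts `a` give simultaneous primes infinitely often -/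
def PrimeTuple {k : ℕ} (a : Fin k → ℕ) : Prop := {n : ℕ | ∀ i, (n + a i).Prime}.Infinite

open Classical in
/-- ordered tuples of distinct elements -/
noncomputable def good (k : ℕ) (V : Finset ℕ) : Finset (Fin k → ℕ) :=
  (Fintype.piFinset fun _ : Fin k => V).filter fun a => Function.Injective a ∧ PrimeTuple a

open Classical in
theorem tuples (hQ : Quarter) (k : ℕ) {ε : ℝ} (hε : 0 < ε) : ∃ n₀ : ℕ, ∀ V : Finset ℕ,
    Miss (4 * k + 1) V → n₀ ≤ V.card →
    (1 / ((4 * k).choose k : ℝ) - ε) * (V.card : ℝ) ^ (k + 1) ≤ (good (k + 1) V).card := by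
  obtain ⟨K, hK, hit⟩ := hit hQ (4 * k + 1)
  set β : ℝ := 1 / ((4 * k).choose k : ℝ) with hβ
  have hch : 0 < ((4 * k).choose k : ℝ) := by
    exact_mod_cast Nat.choose_pos (by omega)
  rcases le_or_gt β ε with hle | hlt
  · refine ⟨0, fun V _ _ => ?_⟩
    have : (β - ε) * (V.card : ℝ) ^ (k + 1) ≤ 0 :=
      mul_nonpos_of_nonpos_of_nonneg (by linarith) (by positivity)
    exact this.trans (by positivity)
  set x : ℝ := β - ε / 2 with hx
  have hx0 : 0 ≤ x := by rw [hx]; linarith
  have hx1 : (((4 * k + 1) - 1).choose ((k + 1) - 1) : ℝ) * x < 1 := by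
    simp only [Nat.add_sub_cancel]
    rw [hx, hβ, mul_sub, mul_one_div_cancel hch.ne']
    have : 0 < ((4 * k).choose k : ℝ) * (ε / 2) := by positivity
    linarith
  set Q : ℕ := ((4 * k + 1) * K).factorial with hQdef
  have hQ0 : 0 < Q := Nat.factorial_pos _
  obtain ⟨n₀, hn₀⟩ := turan_blowup (r := k + 1) (T := 4 * k + 1) (K := Q * K) (by omega)
    (by omega) (Nat.mul_pos hQ0 hK) hx0 hx1
  refine ⟨max n₀ (max (k + 1) (⌊2 * ((k + 1 : ℕ) : ℝ) ^ 2 / ε⌋₊ + 1)), fun V hV hcard => ?_⟩
  by_contra hcon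
  push Not at hcon
  have hWc : Fintype.card V = V.card := by simp
  have hW0 : n₀ ≤ Fintype.card V := by rw [hWc]; exact (le_max_left _ _).trans hcard
  have hW1 : k + 1 ≤ Fintype.card V := by
    rw [hWc]; exact (le_max_left _ _).trans ((le_max_right _ _).trans hcard)
  have hW2 : ⌊2 * ((k + 1 : ℕ) : ℝ) ^ 2 / ε⌋₊ + 1 ≤ Fintype.card V := by
    rw [hWc]; exact (le_max_right _ _).trans ((le_max_right _ _).trans hcard)
  set n : ℝ := (Fintype.card V : ℝ) with hn
  have hn0 : 0 < n := by
    rw [hn]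
    have : 0 < Fintype.card V := by omega
    exact_mod_cast this
  have hnε : ((k + 1 : ℕ) : ℝ) ^ 2 / n ≤ ε / 2 := by
    have h1 : 2 * ((k + 1 : ℕ) : ℝ) ^ 2 / ε < n := by
      calc 2 * ((k + 1 : ℕ) : ℝ) ^ 2 / ε < ⌊2 * ((k + 1 : ℕ) : ℝ) ^ 2 / ε⌋₊ + 1 :=
            Nat.lt_floor_add_one _
        _ ≤ n := by rw [hn]; exact_mod_cast hW2
    rw [div_lt_iff₀ hε] at h1
    rw [div_le_iff₀ hn0]
    linarith
  -- the bad sets
  set B : Finset (Finset V) := univ.filter fun I => I.card = k + 1 ∧
    ¬ {m : ℕ | ∀ a ∈ I, (m + (a : ℕ)).Prime}.Infinite with hB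
  have hBr : ∀ I ∈ B, I.card = k + 1 := fun I hI => (mem_filter.1 hI).2.1
  -- all tuples
  have hcount : n ^ (k + 1) ≤ cnt B (k + 1) (k + 1) + (good (k + 1) V).card +
      ((univ.filter fun y : Fin (k + 1) → V => ¬ Function.Injective y).card : ℝ) := by
    have h1 : (univ : Finset (Fin (k + 1) → V)) ⊆
        (univ.filter fun u : Fin (k + 1) → V => Clq B (k + 1) u) ∪
        (univ.filter fun u : Fin (k + 1) → V => (fun i => (u i : ℕ)) ∈ good (k + 1) V) ∪
        (univ.filter fun y : Fin (k + 1) → V => ¬ Function.Injective y) := by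
      intro u _
      simp only [mem_union, mem_filter, mem_univ, true_and]
      by_cases hinj : Function.Injective u
      · left
        by_cases hp : PrimeTuple fun i => (u i : ℕ)
        · right
          rw [good, mem_filter, Fintype.mem_piFinset]
          exact ⟨fun i => (u i).2, fun i j hij => hinj (Subtype.ext hij), hp⟩
        · left
          intro I hI
          have hIu : I = univ := by
            rw [← card_eq_iff_eq_univ, hI, Fintype.card_fin]
          rw [hB, mem_filter]
          refine ⟨mem_univ _, by rw [card_image_of_injective _ hinj, hI], fun hinf => hp ?_⟩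
          refine hinf.mono ?_
          intro m hm i
          exact hm (u i) (mem_image_of_mem u (by rw [hIu]; exact mem_univ i))
      · right
        exact hinj
    have h2 := (card_le_card h1).trans ((card_union_le _ _).trans
      (Nat.add_le_add_right (card_union_le _ _) _))
    rw [card_univ, Fintype.card_fun, Fintype.card_fin] at h2
    have h3 : (univ.filter fun u : Fin (k + 1) → V =>
        (fun i => (u i : ℕ)) ∈ good (k + 1) V).card ≤ (good (k + 1) V).card := by
      apply card_le_card_of_injOn (fun u i => (u i : ℕ))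
      · intro u hu
        simpa using hu
      · intro u _ v _ huv
        funext i
        exact Subtype.ext (congrFun huv i)
    have h4 : (Fintype.card V) ^ (k + 1) ≤ cnt B (k + 1) (k + 1) +
        (good (k + 1) V).card +
        (univ.filter fun y : Fin (k + 1) → V => ¬ Function.Injective y).card := by
      refine h2.trans ?_
      unfold cnt
      omega
    rw [hn]
    exact_mod_cast h4
  have hnon := card_noninj V (k + 1) hW1 (by omega)
  rw [← hn] at hnon
  have hbad : (1 - x) * n ^ (k + 1) ≤ cnt B (k + 1) (k + 1) := by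
    have h5 : ((k + 1 : ℕ) : ℝ) ^ 2 / n * n ^ (k + 1) ≤ ε / 2 * n ^ (k + 1) := by gcongr
    rw [← hWc, ← hn] at hcon
    rw [hx]
    linarith
  obtain ⟨A, hAK, hA⟩ := hn₀ V hW0 B hbad
  obtain ⟨H, hH, hHc⟩ := exists_family hV hBr
    (by rcases Nat.eq_zero_or_pos k with rfl | h
        · left; rfl
        · right; omega) (by omega) hK hQ0 (fun p hp hpp => Nat.dvd_factorial hpp.pos hp) hAK hA
  obtain ⟨S, c, hS, hinf⟩ := hit _ hH
  obtain ⟨I, hIS, hIc⟩ := exists_subset_card_eq (show k + 1 ≤ S.card by omega)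
  have h6 := hHc c I hIc
  rw [hB, mem_filter] at h6
  apply h6.2.2
  refine hinf.mono ?_
  intro m hm a ha
  rw [mem_image] at ha
  obtain ⟨g, hg, rfl⟩ := ha
  exact hm g (hIS hg)

/-- every five classes of `K` shifts have a cross difference in `D` -/
def Hits (D : Set ℕ) : Prop := ∃ K : ℕ, 1 ≤ K ∧ ∀ H : Fin 5 → Fin K → ℕ, Adm H →
    ∃ g g' i i', g ≠ g' ∧ H g i < H g' i' ∧ H g' i' - H g i ∈ D

open Classical in
/-- the pairs of elements with difference in `D` -/
noncomputable def pairs (D : Set ℕ) (V : Finset ℕ) : Finset (ℕ × ℕ) :=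
  (V ×ˢ V).filter fun x => x.1 < x.2 ∧ x.2 - x.1 ∈ D

open Classical in
theorem pairs_ge {D : Set ℕ} (hD : Hits D) {ε : ℝ} (hε : 0 < ε) : ∃ n₀ : ℕ,
    ∀ V : Finset ℕ, Miss 5 V → n₀ ≤ V.card →
    (1 / 8 - ε) * (V.card : ℝ) ^ 2 ≤ (pairs D V).card := by
  obtain ⟨K, hK, hD⟩ := hD
  rcases le_or_gt (1 / 8 : ℝ) ε with hle | hlt
  · refine ⟨0, fun V _ _ => ?_⟩
    have : (1 / 8 - ε) * (V.card : ℝ) ^ 2 ≤ 0 :=
      mul_nonpos_of_nonpos_of_nonneg (by linarith) (by positivity)
    exact this.trans (by positivity)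
  set x : ℝ := 1 / 4 - ε with hx
  have hx0 : 0 ≤ x := by rw [hx]; linarith
  have hx1 : ((5 - 1).choose (2 - 1) : ℝ) * x < 1 := by
    have : ((5 - 1).choose (2 - 1) : ℝ) = 4 := by norm_num
    rw [this, hx]
    linarith
  set Q : ℕ := (5 * K).factorial with hQdef
  have hQ0 : 0 < Q := Nat.factorial_pos _
  obtain ⟨n₀, hn₀⟩ := turan_blowup (r := 2) (T := 5) (K := Q * K) (by omega) (by omega)
    (Nat.mul_pos hQ0 hK) hx0 hx1
  refine ⟨max n₀ (max 2 (⌊4 / ε⌋₊ + 1)), fun V hV hcard => ?_⟩
  by_contra hcon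
  push Not at hcon
  have hWc : Fintype.card V = V.card := by simp
  have hW0 : n₀ ≤ Fintype.card V := by rw [hWc]; exact (le_max_left _ _).trans hcard
  have hW1 : 2 ≤ Fintype.card V := by
    rw [hWc]; exact (le_max_left _ _).trans ((le_max_right _ _).trans hcard)
  have hW2 : ⌊4 / ε⌋₊ + 1 ≤ Fintype.card V := by
    rw [hWc]; exact (le_max_right _ _).trans ((le_max_right _ _).trans hcard)
  set n : ℝ := (Fintype.card V : ℝ) with hn
  have hn0 : 0 < n := by
    rw [hn]
    have : 0 < Fintype.card V := by omega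
    exact_mod_cast this
  have hnε : ((2 : ℕ) : ℝ) ^ 2 / n ≤ ε := by
    have h1 : 4 / ε < n := by
      calc 4 / ε < ⌊4 / ε⌋₊ + 1 := Nat.lt_floor_add_one _
        _ ≤ n := by rw [hn]; exact_mod_cast hW2
    rw [div_lt_iff₀ hε] at h1
    rw [div_le_iff₀ hn0]
    push_cast
    linarith
  set B : Finset (Finset V) := univ.filter fun I => I.card = 2 ∧
    ∀ a ∈ I, ∀ b ∈ I, (a : ℕ) < b → (b : ℕ) - a ∉ D with hB
  have hBr : ∀ I ∈ B, I.card = 2 := fun I hI => (mem_filter.1 hI).2.1
  have hcount : n ^ 2 ≤ cnt B 2 2 + 2 * (pairs D V).card +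
      ((univ.filter fun y : Fin 2 → V => ¬ Function.Injective y).card : ℝ) := by
    have h1 : (univ : Finset (Fin 2 → V)) ⊆
        (univ.filter fun u : Fin 2 → V => Clq B 2 u) ∪
        ((univ.filter fun u : Fin 2 → V => ((u 0 : ℕ), (u 1 : ℕ)) ∈ pairs D V) ∪
        (univ.filter fun u : Fin 2 → V => ((u 1 : ℕ), (u 0 : ℕ)) ∈ pairs D V)) ∪
        (univ.filter fun y : Fin 2 → V => ¬ Function.Injective y) := by
      intro u _
      simp only [mem_union, mem_filter, mem_univ, true_and]
      by_cases hinj : Function.Injective u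
      · left
        by_cases h01 : ((u 0 : ℕ), (u 1 : ℕ)) ∈ pairs D V
        · exact Or.inr (Or.inl h01)
        by_cases h10 : ((u 1 : ℕ), (u 0 : ℕ)) ∈ pairs D V
        · exact Or.inr (Or.inr h10)
        left
        intro I hI
        rw [hB, mem_filter]
        refine ⟨mem_univ _, by rw [card_image_of_injective _ hinj, hI], ?_⟩
        intro a ha b hb hab hd
        rw [mem_image] at ha hb
        obtain ⟨i, _, rfl⟩ := ha
        obtain ⟨j, _, rfl⟩ := hb
        have hij : i ≠ j := by rintro rfl; exact lt_irrefl _ hab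
        fin_cases i <;> fin_cases j
        · exact hij rfl
        · exact h01 (by
            rw [pairs, mem_filter, mem_product]
            exact ⟨⟨(u 0).2, (u 1).2⟩, hab, hd⟩)
        · exact h10 (by
            rw [pairs, mem_filter, mem_product]
            exact ⟨⟨(u 1).2, (u 0).2⟩, hab, hd⟩)
        · exact hij rfl
      · right
        exact hinj
    have h2 := (card_le_card h1).trans ((card_union_le _ _).trans
      (Nat.add_le_add_right ((card_union_le _ _).trans
        (Nat.add_le_add_left (card_union_le _ _) _)) _))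
    rw [card_univ, Fintype.card_fun, Fintype.card_fin] at h2
    have h3 : (univ.filter fun u : Fin 2 → V =>
        ((u 0 : ℕ), (u 1 : ℕ)) ∈ pairs D V).card ≤ (pairs D V).card := by
      apply card_le_card_of_injOn (fun u => ((u 0 : ℕ), (u 1 : ℕ)))
      · intro u hu
        simpa using hu
      · intro u _ v _ huv
        funext i
        simp only [Prod.mk.injEq] at huv
        fin_cases i
        · exact Subtype.ext huv.1
        · exact Subtype.ext huv.2
    have h3' : (univ.filter fun u : Fin 2 → V =>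
        ((u 1 : ℕ), (u 0 : ℕ)) ∈ pairs D V).card ≤ (pairs D V).card := by
      apply card_le_card_of_injOn (fun u => ((u 1 : ℕ), (u 0 : ℕ)))
      · intro u hu
        simpa using hu
      · intro u _ v _ huv
        funext i
        simp only [Prod.mk.injEq] at huv
        fin_cases i
        · exact Subtype.ext huv.2
        · exact Subtype.ext huv.1
    have h4 : (Fintype.card V) ^ 2 ≤ cnt B 2 2 + 2 * (pairs D V).card +
        (univ.filter fun y : Fin 2 → V => ¬ Function.Injective y).card := by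
      refine h2.trans ?_
      unfold cnt
      omega
    rw [hn]
    exact_mod_cast h4
  have hnon := card_noninj V 2 hW1 (by omega)
  rw [← hn] at hnon
  have hbad : (1 - x) * n ^ 2 ≤ cnt B 2 2 := by
    have h5 : ((2 : ℕ) : ℝ) ^ 2 / n * n ^ 2 ≤ ε * n ^ 2 := by gcongr
    rw [← hWc, ← hn] at hcon
    rw [hx]
    linarith
  obtain ⟨A, hAK, hA⟩ := hn₀ V hW0 B hbad
  obtain ⟨H, hH, hHc⟩ := exists_family hV hBr (Or.inr le_rfl) (by omega) hK hQ0
    (fun p hp hpp => Nat.dvd_factorial hpp.pos hp) hAK hA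
  obtain ⟨g, g', i, i', hg, hlt', hmem⟩ := hD _ hH
  have h6 := hHc (fun j => if j = g then i else i') {g, g'} (card_pair hg)
  rw [hB, mem_filter] at h6
  refine h6.2.2 (H g i) ?_ (H g' i') ?_ hlt' hmem
  · rw [mem_image]
    exact ⟨g, by simp, by simp⟩
  · rw [mem_image]
    exact ⟨g', by simp, by simp [Ne.symm hg]⟩

end Pool.Agent.H461R2.PD
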