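import Pool.Agent.H461R2.PD.Hit

/-!
# Gaps between consecutive primes in terms of the `n`-th prime
-/

namespace Pool.Agent.H461R2.PD

theorem nth_gap {p d : ℕ} (hp : p.Prime) (hpd : (p + d).Prime) (hd : 0 < d)
    (h : ∀ m, p < m → m < p + d → ¬ m.Prime) :
    Nat.nth Nat.Prime (Nat.count Nat.Prime p + 1) = Nat.nth Nat.Prime (Nat.count Nat.Prime p) + d := by
  rw [Nat.nth_count hp]
  have h1 : Nat.count Nat.Prime p + 1 = Nat.count Nat.Prime (p + 1) := by
    rw [Nat.count_succ, if_pos hp]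
  rw [h1, Nat.nth_count_eq_sInf]
  apply le_antisymm
  · exact Nat.sInf_le ⟨hpd, by omega⟩
  · apply le_csInf
    · exact ⟨p + d, hpd, by omega⟩
    · rintro m ⟨hm1, hm2⟩
      by_contra hlt
      exact h m (by omega) (by omega) hm1

theorem gap_sub {d : ℕ} (hd : d ∈ Gap) :
    {n : ℕ | Nat.nth Nat.Prime (n + 1) = Nat.nth Nat.Prime n + d}.Infinite := by
  have h : {n : ℕ | n.Prime ∧ (n + d).Prime ∧ 0 < d ∧
    ∀ m, n < m → m < n + d → ¬ m.Prime}.Infinite := hd
  refine Set.infinite_of_injOn_mapsTo (f := fun p => Nat.count Nat.Prime p) ?_ ?_ h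
  · intro p hp q hq hpq
    have h1 := Nat.nth_count (p := Nat.Prime) hp.1
    have h2 := Nat.nth_count (p := Nat.Prime) hq.1
    simp only at hpq
    rw [← h1, ← h2, hpq]
  · intro p hp
    exact nth_gap hp.1 hp.2.1 hp.2.2.1 hp.2.2.2

end Pool.Agent.H461R2.PD
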