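import Pool.Agent.H461R2.PD.Dens

/-!
# Differences inside arbitrary sets of integers
-/

namespace Pool.Agent.H461R2.PD

open Finset

/-- `S` misses a residue class modulo each of `2, 3, 5` -/
def Miss5 (S : Set ℕ) : Prop := ∀ p : ℕ, p ≤ 5 → p.Prime → ∃ r : ℕ, ∀ v ∈ S, ¬ v ≡ r [MOD p]

/-- the difference of `a` and `b` is not in `D` -/
def Bad (D : Set ℕ) (a b : ℕ) : Prop := (a < b → b - a ∉ D) ∧ (b < a → a - b ∉ D)

theorem Bad.symm {D : Set ℕ} {a b : ℕ} (h : Bad D a b) : Bad D b a := ⟨h.2, h.1⟩

/-- `t` disjoint subsets of `S` with `M` elements without cross differences in `D`, each of them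
in one residue class modulo `Q` -/
def Templ (D S : Set ℕ) (Q t M : ℕ) : Prop := ∃ (A : Fin t → Finset ℕ) (r : Fin t → ℕ),
  (∀ i, (A i).card = M) ∧ (∀ i j, i ≠ j → Disjoint (A i) (A j)) ∧
  (∀ i j, i ≠ j → ∀ a ∈ A i, ∀ b ∈ A j, Bad D a b) ∧
  ∀ i, ∀ a ∈ A i, a ∈ S ∧ a ≡ r i [MOD Q]

theorem templ_zero (D S : Set ℕ) (Q M : ℕ) : Templ D S Q 0 M :=
  ⟨Fin.elim0, Fin.elim0, fun i => i.elim0, fun i => i.elim0, fun i => i.elim0, fun i => i.elim0⟩

theorem not_templ_five {D S : Set ℕ} {K Q : ℕ} (hS : Miss5 S)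
    (hQK : ∀ p, p ≤ 5 * K → p.Prime → p ∣ Q)
    (hD : ∀ H : Fin 5 → Fin K → ℕ, Adm H →
      ∃ g g' i i', g ≠ g' ∧ H g i < H g' i' ∧ H g' i' - H g i ∈ D) : ¬ Templ D S Q 5 K := by
  classical
  rintro ⟨A, r, hA, hdis, hbad, hr⟩
  set e : ∀ g, Fin K ≃ A g := fun g => ((A g).equivFinOfCardEq (hA g)).symm with he
  obtain ⟨g, g', i, i', hg, hlt, hmem⟩ := hD (fun g i => (e g i : ℕ)) (by
    refine ⟨?_, ?_⟩
    · rintro ⟨g, i⟩ ⟨g', i'⟩ hx
      simp only at hx
      have hgg : g = g' := by
        by_contra hgg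
        exact disjoint_left.1 (hdis g g' hgg) (e g i).2 (by rw [hx]; exact (e g' i').2)
      subst hgg
      have : e g i = e g i' := Subtype.ext hx
      rw [(e g).injective this]
    · intro p hp
      rcases le_or_gt p (5 * K) with hpz | hpz
      · rcases le_or_gt p 5 with hp5 | hp5
        · obtain ⟨s, hs⟩ := hS p hp5 hp
          refine ⟨-(s : ℤ), fun g i hd => hs _ (hr g _ (e g i).2).1 ?_⟩
          rw [← Int.natCast_modEq_iff]
          exact (Int.modEq_iff_dvd.2 (by
            have e' : ((e g i : ℕ) : ℤ) - (s : ℤ) = -(s : ℤ) + (e g i : ℕ) := by ring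
            rw [e']; exact hd)).symm
        · -- five residue classes
          have : Fact p.Prime := ⟨hp⟩
          obtain ⟨n, hn⟩ := exists_shift (T := 5) (K := 1) hp (by omega) (fun g _ => r g)
          refine ⟨n, fun g i hd => hn g 0 ?_⟩
          have h1 : ((e g i : ℕ) : ZMod p) = (r g : ZMod p) := by
            rw [ZMod.natCast_eq_natCast_iff]
            exact (hr g _ (e g i).2).2.of_dvd (hQK p hpz hp)
          rw [← ZMod.intCast_zmod_eq_zero_iff_dvd] at hd ⊢
          push_cast at hd ⊢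
          rw [← h1]
          exact hd
      · exact exists_shift hp hpz _)
  exact (hbad g g' hg _ (e g i).2 _ (e g' i').2).1 hlt hmem

open Classical in
/-- the elements of `D` up to `N` that are differences of two elements of `S` -/
noncomputable def diffs (D S : Set ℕ) (N : ℕ) : Finset ℕ :=
  (Icc 1 N).filter fun d => d ∈ D ∧ ∃ s ∈ S, s + d ∈ S

open Classical in
theorem sets {D : Set ℕ} (hD : Hits D) {S : Set ℕ} (hS : Miss5 S) {ε : ℝ} (hε : 0 < ε) :
    ∃ N₀ : ℕ, ∀ N ≥ N₀, (((Icc 1 N).filter fun s => s ∈ S).card : ℝ) ≤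
      4 * (diffs D S N).card + ε * N := by
  obtain ⟨K, hK, hD⟩ := hD
  set Q : ℕ := (5 * K).factorial with hQdef
  have hQ : 0 < Q := Nat.factorial_pos _
  have h5 := not_templ_five (D := D) hS
    (fun p hp hpp => (Nat.dvd_factorial hpp.pos hp)) hD
  -- the maximal number of classes
  obtain ⟨t, ht5, ht, K₀, hK₀⟩ : ∃ t < 5, (∀ M, Templ D S Q t M) ∧
      ∃ K₀, ¬ Templ D S Q (t + 1) K₀ := by
    by_contra hcon
    push Not at hcon
    have : ∀ t ≤ 5, ∀ M, Templ D S Q t M := by
      intro t
      induction t with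
      | zero => exact fun _ M => templ_zero D S Q M
      | succ t ih => exact fun h => hcon t (by omega) (ih (by omega))
    exact h5 (this 5 le_rfl K)
  set M : ℕ := max (K₀ + 1) (K₀ + ⌈8 * (K₀ : ℝ) / ε⌉₊) with hM
  have hM1 : K₀ < M := Nat.lt_of_succ_le (le_max_left _ _)
  have hMε : 8 * (K₀ : ℝ) ≤ ε * ((M : ℝ) - K₀) := by
    have h1 : K₀ + ⌈8 * (K₀ : ℝ) / ε⌉₊ ≤ M := le_max_right _ _
    have h2 : (K₀ : ℝ) + ⌈8 * (K₀ : ℝ) / ε⌉₊ ≤ M := by exact_mod_cast h1
    have h3 : 8 * (K₀ : ℝ) / ε ≤ (M : ℝ) - K₀ := by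
      have := Nat.le_ceil (8 * (K₀ : ℝ) / ε)
      linarith
    rw [div_le_iff₀ hε] at h3
    linarith
  obtain ⟨A, r, hAM, hdis, hbad, hr⟩ := ht M
  -- a bound for the elements
  obtain ⟨L, hL⟩ : ∃ L, ∀ i, ∀ a ∈ A i, a ≤ L :=
    ⟨univ.sup fun i => (A i).sup id, fun i a ha =>
      (le_sup (f := id) ha).trans (le_sup (f := fun i => (A i).sup id) (mem_univ i))⟩
  set nb : ℕ → Fin t → Finset ℕ := fun x i => (A i).filter fun a => x - a ∉ D with hnb
  set C : ℕ := K₀ * ((∏ i : Fin t, 2 ^ (A i).card) * Q) with hC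
  -- few exceptional integers
  have hexc : ∀ N, ((Ioc L N).filter fun x => x ∈ S ∧ ∀ i, K₀ ≤ (nb x i).card).card ≤ C := by
    intro N
    by_contra hcon
    push Not at hcon
    set X := (Ioc L N).filter fun x => x ∈ S ∧ ∀ i, K₀ ≤ (nb x i).card with hX
    have hmaps : ∀ x ∈ X, (nb x, x % Q) ∈
        (Fintype.piFinset fun i => (A i).powerset) ×ˢ range Q := by
      intro x _
      rw [mem_product, Fintype.mem_piFinset]
      refine ⟨fun i => ?_, mem_range.2 (Nat.mod_lt _ hQ)⟩
      rw [mem_powerset]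
      exact filter_subset _ _
    obtain ⟨⟨v, q⟩, _, hv⟩ := exists_lt_card_fiber_of_mul_lt_card_of_maps_to hmaps (n := K₀) (by
      rw [card_product, Fintype.card_piFinset, card_range]
      simp only [card_powerset]
      calc ((∏ i, 2 ^ (A i).card) * Q) * K₀ = C := by rw [hC, mul_comm]
        _ < X.card := hcon)
    obtain ⟨Y, hY, hYc⟩ := exists_subset_card_eq hv.le
    -- the fibre is not empty
    obtain ⟨x₀, hx₀⟩ : (X.filter fun x => (nb x, x % Q) = (v, q)).Nonempty :=
      card_pos.1 (by omega)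
    rw [mem_filter] at hx₀
    have hx₀v : nb x₀ = v := (Prod.mk.inj hx₀.2).1
    have hvK : ∀ i, K₀ ≤ (v i).card := by
      intro i
      rw [← hx₀v]
      exact (mem_filter.1 hx₀.1).2.2 i
    choose Bs hBs hBc using fun i => exists_subset_card_eq (hvK i)
    have hYv : ∀ y ∈ Y, y ∈ X ∧ nb y = v ∧ y % Q = q := fun y hy => by simpa using hY hy
    have hvA : ∀ i, v i ⊆ A i := by
      intro i
      rw [← hx₀v]
      exact filter_subset _ _
    have hlt : ∀ i, ∀ b ∈ Bs i, ∀ y ∈ Y, b < y := by
      intro i b hb y hy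
      have h1 := hL i b (hvA i (hBs i hb))
      have h2 := (mem_filter.1 (hYv y hy).1).1
      rw [mem_Ioc] at h2
      omega
    have hbY : ∀ i, ∀ b ∈ Bs i, ∀ y ∈ Y, Bad D b y := by
      intro i b hb y hy
      refine ⟨fun _ => ?_, fun h => absurd (hlt i b hb y hy) (by omega)⟩
      have h1 : b ∈ nb y i := by rw [(hYv y hy).2.1]; exact hBs i hb
      exact (mem_filter.1 h1).2
    apply hK₀
    refine ⟨Fin.cons Y Bs, Fin.cons q r, ?_, ?_, ?_, ?_⟩
    · intro i
      refine Fin.cases ?_ (fun i => ?_) i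
      · simpa using hYc
      · simpa using hBc i
    · intro i j
      refine Fin.cases ?_ (fun i => ?_) i <;> refine Fin.cases ?_ (fun j => ?_) j
      · intro h; exact absurd rfl h
      · intro _
        simp only [Fin.cons_zero, Fin.cons_succ]
        rw [disjoint_left]
        intro y hy hb
        exact lt_irrefl _ (hlt j y hb y hy)
      · intro _
        simp only [Fin.cons_zero, Fin.cons_succ]
        rw [disjoint_left]
        intro y hb hy
        exact lt_irrefl _ (hlt i y hb y hy)
      · intro h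
        simp only [Fin.cons_succ]
        have hij : i ≠ j := fun h' => h (by rw [h'])
        exact disjoint_of_subset_left ((hBs i).trans (hvA i))
          (disjoint_of_subset_right ((hBs j).trans (hvA j)) (hdis i j hij))
    · intro i j
      refine Fin.cases ?_ (fun i => ?_) i <;> refine Fin.cases ?_ (fun j => ?_) j
      · intro h; exact absurd rfl h
      · intro _ a ha b hb
        simp only [Fin.cons_zero] at ha
        simp only [Fin.cons_succ] at hb
        exact (hbY j b hb a ha).symm
      · intro _ a ha b hb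
        simp only [Fin.cons_succ] at ha
        simp only [Fin.cons_zero] at hb
        exact hbY i a ha b hb
      · intro h a ha b hb
        simp only [Fin.cons_succ] at ha hb
        have hij : i ≠ j := fun h' => h (by rw [h'])
        exact hbad i j hij a (hvA i (hBs i ha)) b (hvA j (hBs j hb))
    · intro i
      refine Fin.cases ?_ (fun i => ?_) i
      · intro a ha
        simp only [Fin.cons_zero] at ha ⊢
        have h1 := hYv a ha
        refine ⟨(mem_filter.1 h1.1).2.1, ?_⟩
        rw [← h1.2.2]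
        exact (Nat.mod_modEq _ _).symm
      · intro a ha
        simp only [Fin.cons_succ] at ha ⊢
        exact hr i a (hvA i (hBs i ha))
  -- the double count
  have hmain : ∀ N : ℕ, ((M : ℝ) - K₀) * ((((Icc 1 N).filter fun s => s ∈ S).card : ℝ) - L - C) ≤
      4 * M * (diffs D S N).card := by
    intro N
    set SN := (Icc 1 N).filter fun s => s ∈ S with hSN
    set Y := (Ioc L N).filter fun x => x ∈ S ∧ ¬ ∀ i, K₀ ≤ (nb x i).card with hY
    have hYc : SN.card ≤ Y.card + C + L := by
      have h1 : SN ⊆ (((Ioc L N).filter fun x => x ∈ S ∧ ∀ i, K₀ ≤ (nb x i).card) ∪ Y) ∪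
          Icc 1 L := by
        intro s hs
        rw [hSN, mem_filter, mem_Icc] at hs
        simp only [mem_union, hY, mem_filter, mem_Ioc, mem_Icc]
        by_cases hsL : s ≤ L
        · right; exact ⟨hs.1.1, hsL⟩
        · left
          by_cases hc : ∀ i, K₀ ≤ (nb s i).card
          · left; exact ⟨⟨by omega, hs.1.2⟩, hs.2, hc⟩
          · right; exact ⟨⟨by omega, hs.1.2⟩, hs.2, hc⟩
      have h2 := (card_le_card h1).trans ((card_union_le _ _).trans
        (Nat.add_le_add_right (card_union_le _ _) _))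
      rw [Nat.card_Icc] at h2
      have h3 := hexc N
      omega
    have h1 : (M - K₀) * Y.card ≤ ∑ x ∈ Y, ∑ i, ∑ a ∈ A i,
        if x - a ∈ D then 1 else 0 := by
      calc (M - K₀) * Y.card = ∑ _x ∈ Y, (M - K₀) := by simp [mul_comm]
        _ ≤ _ := by
            refine sum_le_sum fun x hx => ?_
            have h2 := (mem_filter.1 hx).2.2
            push Not at h2
            obtain ⟨i, hi⟩ := h2
            refine le_trans ?_ (single_le_sum (f := fun i => ∑ a ∈ A i,
              if x - a ∈ D then 1 else 0) (fun _ _ => Nat.zero_le _) (mem_univ i))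
            rw [← card_filter]
            have h3 := card_filter_add_card_filter_not (s := A i) (fun a => x - a ∈ D)
            rw [hAM i] at h3
            have h4 : ((A i).filter fun a => ¬ x - a ∈ D).card < K₀ := hi
            omega
    have h2 : ∑ x ∈ Y, ∑ i, ∑ a ∈ A i, (if x - a ∈ D then 1 else 0) ≤
        t * M * (diffs D S N).card := by
      calc _ = ∑ i, ∑ a ∈ A i, ∑ x ∈ Y, (if x - a ∈ D then 1 else 0) := by
            rw [sum_comm]
            exact sum_congr rfl fun i _ => sum_comm
        _ ≤ ∑ i, ∑ _a ∈ A i, (diffs D S N).card := by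
            refine sum_le_sum fun i _ => sum_le_sum fun a ha => ?_
            rw [← card_filter]
            apply card_le_card_of_injOn (fun x => x - a)
            · intro x hx
              simp only [hY, coe_filter, mem_filter, Set.mem_ofPred_eq, mem_Ioc] at hx
              have h3 := hL i a ha
              simp only [diffs, coe_filter, Set.mem_ofPred_eq, mem_Icc]
              refine ⟨⟨by omega, by omega⟩, hx.2, a, (hr i a ha).1, ?_⟩
              have e : a + (x - a) = x := by omega
              rw [e]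
              exact hx.1.2.1
            · intro x hx y hy hxy
              simp only [hY, coe_filter, mem_filter, Set.mem_ofPred_eq, mem_Ioc] at hx hy
              have h3 := hL i a ha
              simp only at hxy
              omega
        _ = t * M * (diffs D S N).card := by
            simp [hAM, mul_assoc]
    have h3 : (M - K₀) * Y.card ≤ 4 * M * (diffs D S N).card := by
      refine (h1.trans h2).trans ?_
      have : t ≤ 4 := by omega
      gcongr
    have h4 : ((M : ℝ) - K₀) * Y.card ≤ 4 * M * (diffs D S N).card := by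
      have : ((M - K₀ : ℕ) : ℝ) = (M : ℝ) - K₀ := by rw [Nat.cast_sub hM1.le]
      rw [← this]
      exact_mod_cast h3
    refine le_trans ?_ h4
    have h5 : (SN.card : ℝ) ≤ Y.card + C + L := by exact_mod_cast hYc
    have h6 : (K₀ : ℝ) < M := by exact_mod_cast hM1
    have h7 : 0 ≤ (M : ℝ) - K₀ := by linarith
    have h8 : (SN.card : ℝ) - L - C ≤ Y.card := by linarith
    exact mul_le_mul_of_nonneg_left h8 h7
  refine ⟨⌈2 * ((L : ℝ) + C) / ε⌉₊, fun N hN => ?_⟩
  have hNε : 2 * ((L : ℝ) + C) ≤ ε * N := by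
    have h1 : 2 * ((L : ℝ) + C) / ε ≤ N := (Nat.le_ceil _).trans (by exact_mod_cast hN)
    rw [div_le_iff₀ hε] at h1
    linarith
  set d : ℝ := ((diffs D S N).card : ℝ) with hd
  have hd0 : 0 ≤ d := by positivity
  have hdN : d ≤ N := by
    rw [hd]
    have h1 : (diffs D S N).card ≤ (Icc 1 N).card := card_filter_le _ _
    rw [Nat.card_Icc] at h1
    exact_mod_cast (by omega : (diffs D S N).card ≤ N)
  have h1 := hmain N
  have h6 : 0 < (M : ℝ) - K₀ := by
    have : (K₀ : ℝ) < M := by exact_mod_cast hM1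
    linarith
  refine le_of_mul_le_mul_left ?_ h6
  have h2 : 4 * (K₀ : ℝ) * d ≤ (ε / 2 * ((M : ℝ) - K₀)) * N := by
    calc 4 * (K₀ : ℝ) * d ≤ (ε / 2 * ((M : ℝ) - K₀)) * d := by
          apply mul_le_mul_of_nonneg_right _ hd0
          linarith
      _ ≤ _ := by
          apply mul_le_mul_of_nonneg_left hdN
          positivity
  have h3 : ((M : ℝ) - K₀) * ((L : ℝ) + C) ≤ ((M : ℝ) - K₀) * (ε / 2 * N) := by
    apply mul_le_mul_of_nonneg_left _ h6.le
    linarith
  nlinarith

end Pool.Agent.H461R2.PD
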